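import Pool.Agent.helper74.NL.Spec

set_option autoImplicit false

open Complex Metric Set Filter Topology MeasureTheory MPS Pool.Agent.helper98.ILF

noncomputable section

namespace NLF

theorem IND (hTG : TG_stmt) (hINEQ : INEQ_stmt) (hNZ : NZ_stmt) (hMD0 : MD0_stmt) (hRAT : RAT_stmt)
    (hNOP : NOP_stmt) : IND_stmt := by
  intro n k _ c b μ hn hc hb hμ hvol hrho
  by_contra hne
  obtain ⟨g, hg, -⟩ := hTG n k c b hn hb hne
  have h1 := hINEQ n k c b g μ hn hb hμ hrho.ge hg
  have h2 := hNZ n c μ hn hμ hvol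
  rw [hrho, Real.log_one, mul_zero] at h1
  have hS : ∑ i, g i = 0 := by
    have h3 : 0 < ‖CT μ c‖ := norm_pos_iff.mpr h2
    have h4 : ‖∑ i, g i‖ ≤ 0 := by
      by_contra h5
      push Not at h5
      have := mul_pos h5 h3
      linarith
    exact norm_le_zero_iff.mp h4
  have her : ∀ z, er n c b g z = 0 := by
    intro z
    unfold er
    have e1 : ∀ i : ZMod k, (g (i + 1) - g i / fd n (b i) + fdd n (b i) / fd n (b i) ^ 2) / (z - b (i + 1)) = 0 := by
      intro i
      have : g (i + 1) - g i / fd n (b i) + fdd n (b i) / fd n (b i) ^ 2 = 0 := by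
        rw [hg i]
        ring
      rw [this, zero_div]
    have e2 : ∑ i, (g i / fd n (b i) - fdd n (b i) / fd n (b i) ^ 2) = 0 := by
      have e3 : ∑ i, (g i / fd n (b i) - fdd n (b i) / fd n (b i) ^ 2) = ∑ i, g (i + 1) :=
        Finset.sum_congr rfl fun i _ => (hg i).symm
      rw [e3]
      exact (Equiv.sum_comp (Equiv.addRight (1 : ZMod k)) g).trans hS
    rw [Finset.sum_congr rfl fun i _ => e1 i, Finset.sum_const_zero, e2, zero_div, zero_add]
  have h5 := hMD0 n k c b g 4 hn hb hc le_rfl hrho her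
  obtain ⟨κ, hκ⟩ := hRAT n k c b g hn hb hc her h5
  exact hNOP n k c b g κ hn hb hκ

end NLF
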